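import Pool.Agent.H664.EX.Stm

/-!
# JOB ZERO2: lower bounds for exponential polynomials in `V` on slices
-/

set_option autoImplicit false

namespace Pool.Agent.H338.EX

open MvPolynomial Filter Topology Metric Pool.Agent.W996.EC Pool.Agent.Q72.EG Pool.Agent.H664.FH
  Pool.Agent.H664.EX

theorem asym (M C η : ℝ) (hη : 0 < η) :
    ∃ R₀ : ℝ, 1 ≤ R₀ ∧ ∀ R : ℝ, R₀ ≤ R → M * R ^ C < Real.exp (η * R) := by
  have h := isLittleO_rpow_exp_pos_mul_atTop C hη
  have hM : 0 < 1 / (|M| + 1) := by positivity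
  have h1 := h.def hM
  obtain ⟨R₁, hR₁⟩ := eventually_atTop.1 h1
  refine ⟨max R₁ 1, le_max_right _ _, fun R hR => ?_⟩
  have h2 := hR₁ R ((le_max_left _ _).trans hR)
  have hR0 : 0 < R := lt_of_lt_of_le one_pos ((le_max_right _ _).trans hR)
  rw [Real.norm_of_nonneg (Real.rpow_nonneg hR0.le C), Real.norm_of_nonneg (Real.exp_pos _).le] at h2
  have h3 : M * R ^ C ≤ |M| * R ^ C :=
    mul_le_mul_of_nonneg_right (le_abs_self M) (Real.rpow_nonneg hR0.le C)
  have h4 : |M| * R ^ C ≤ |M| * (1 / (|M| + 1) * Real.exp (η * R)) :=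
    mul_le_mul_of_nonneg_left h2 (abs_nonneg M)
  have h5 : |M| * (1 / (|M| + 1) * Real.exp (η * R)) < Real.exp (η * R) := by
    have h6 : |M| * (1 / (|M| + 1)) < 1 := by
      rw [mul_one_div, div_lt_one (by positivity)]
      linarith
    calc |M| * (1 / (|M| + 1) * Real.exp (η * R)) = |M| * (1 / (|M| + 1)) * Real.exp (η * R) := by ring
      _ < 1 * Real.exp (η * R) := mul_lt_mul_of_pos_right h6 (Real.exp_pos _)
      _ = _ := one_mul _
  linarith

section

variable {K : Type} [Field K] [Algebra ℂ K] {S : Sl K} {Q : Finset K} {ω γ : ℂ} {C δ R : ℝ}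
  {X V : ℂ → ℂ} {q : K → ℂ → ℂ}

/-- the relation which defines the new coefficients -/
theorem rel (h : SlAt S Q ω γ C δ R X V q) {τ : ℂ} (hτ : τ ∈ ball (R * ω) (R / 8))
    {A0 A1 B0 B1 W E : K} (b b0 : ℂ) (hA0 : A0 ∈ Q) (hA1 : A1 ∈ Q) (hB0 : B0 ∈ Q) (hB1 : B1 ∈ Q)
    (hW : W ∈ Q) (hE : E ∈ Q)
    (he : E = A0 * (B1 + algebraMap ℂ K b * W * B0) - (A1 + algebraMap ℂ K b0 * W * A0) * B0) :
    q E τ = q A0 τ * (q B1 τ + b * q W τ * q B0 τ) - (q A1 τ + b0 * q W τ * q A0 τ) * q B0 τ := by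
  let x : ∀ k : K, k ∈ Q → MvPolynomial (Fin 4 ⊕ Q) ℂ := fun k hk => MvPolynomial.X (Sum.inr ⟨k, hk⟩)
  let g : MvPolynomial (Fin 4 ⊕ Q) ℂ := x E hE - (x A0 hA0 * (x B1 hB1 + MvPolynomial.C b * x W hW * x B0 hB0) -
    (x A1 hA1 + MvPolynomial.C b0 * x W hW * x A0 hA0) * x B0 hB0)
  have hg : aeval (Sum.elim ![S.z, S.t, S.v, S.y] (fun k : Q => (k : K))) g = 0 := by
    simp only [g, x, map_sub, map_mul, map_add, aeval_X, Sum.elim_inr, MvPolynomial.algHom_C]
    rw [he]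
    ring
  have h1 := h.pt τ hτ g hg
  simp only [g, x, map_sub, map_mul, map_add, eval_X, Sum.elim_inr, eval_C] at h1
  linear_combination h1

/-- the derivative of the exponential polynomial -/
theorem hasDeriv (h : SlAt S Q ω γ C δ R X V q) {τ : ℂ} (hτ : τ ∈ ball (R * ω) (R / 8))
    (F : Finset ℕ) (c : ℕ → K) (hc : ∀ b ∈ F, c b ∈ Q) (hc' : ∀ b ∈ F, S.D (c b) ∈ Q)
    (hv : S.D S.v ∈ Q) :
    HasDerivAt (fun τ => ∑ b ∈ F, q (c b) τ * Complex.exp ((b : ℂ) * V τ))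
      (∑ b ∈ F, (q (S.D (c b)) τ + b * q (S.D S.v) τ * q (c b) τ) *
        Complex.exp ((b : ℂ) * V τ)) τ := by
  have hopen : ball ((R : ℂ) * ω) (R / 8) ∈ 𝓝 τ := isOpen_ball.mem_nhds hτ
  apply HasDerivAt.fun_sum
  intro b hb
  have h1 : HasDerivAt (q (c b)) (q (S.D (c b)) τ) τ := by
    rw [← h.der τ hτ (c b) (hc b hb) (hc' b hb)]
    exact ((h.dq (c b) (hc b hb)).differentiableAt hopen).hasDerivAt
  have h2 : HasDerivAt V (q (S.D S.v) τ) τ := by
    rw [← h.derV τ hτ hv]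
    exact (h.dV.differentiableAt hopen).hasDerivAt
  have h3 := h1.mul ((h2.const_mul (b : ℂ)).cexp)
  refine h3.congr_deriv ?_
  ring

end

theorem zero2 : S_zero2 := by
  intro K _ _ S H
  -- induction on the number of elements
  suffices key : ∀ (n : ℕ) (F : Finset ℕ) (c : ℕ → K), F.card = n + 1 → (∀ b ∈ F, c b ≠ 0) →
      ∃ Q₀ : Finset K, ∀ Q : Finset K, Q₀ ⊆ Q → ∀ C η ρ : ℝ, 0 < η → 0 < ρ →
      ∃ δ R₀ : ℝ, 0 < δ ∧ ∀ R : ℝ, R₀ ≤ R → ∀ (ω : ℂ) (X V : ℂ → ℂ) (q : K → ℂ → ℂ),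
      SlAt S Q ω 0 C δ R X V q → ∀ p : ℂ, ball p (ρ * R) ⊆ ball (R * ω) (R / 8) →
      ∃ τ ∈ ball p (ρ * R), Real.exp (-(η * R)) ≤
        ‖∑ b ∈ F, q (c b) τ * Complex.exp ((b : ℂ) * V τ)‖ by
    intro F c hF hc
    obtain ⟨n, hn⟩ : ∃ n, F.card = n + 1 := ⟨F.card - 1, by have := hF.card_pos; omega⟩
    exact key n F c hn hc
  intro n
  induction n with
  | zero =>
    intro F c hF hc
    obtain ⟨b, rfl⟩ := Finset.card_eq_one.1 hF
    refine ⟨{c b}, fun Q hQ C η ρ hη hρ => ?_⟩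
    obtain ⟨R₀, hR₀1, hR₀⟩ := asym 1 C (η / 2) (by positivity)
    refine ⟨η / (2 * (b + 1)), R₀, by positivity, ?_⟩
    intro R hR ω X V q h p hp
    have hR0 : 0 < R := lt_of_lt_of_le one_pos (hR₀1.trans hR)
    have hpb : p ∈ ball p (ρ * R) := mem_ball_self (by positivity)
    have hpm := hp hpb
    refine ⟨p, hpb, ?_⟩
    have hcb : c b ∈ Q := hQ (Finset.mem_singleton_self _)
    have h1 := (h.bq p hpm (c b) hcb).2 (hc b (Finset.mem_singleton_self _))
    have h2 := h.bV p hpm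
    rw [zero_mul, sub_zero] at h2
    rw [Finset.sum_singleton, norm_mul, Complex.norm_exp]
    have h3 : Real.exp (-(η / 2 * R)) ≤ R ^ (-C) := by
      rw [Real.exp_neg, Real.rpow_neg hR0.le]
      apply inv_anti₀ (Real.rpow_pos_of_pos hR0 C)
      have := hR₀ R hR
      rw [one_mul] at this
      exact this.le
    have h4 : -(η / 2 * R) ≤ ((b : ℂ) * V p).re := by
      have h5 : |((b : ℂ) * V p).re| ≤ ‖(b : ℂ) * V p‖ := Complex.abs_re_le_norm _
      rw [norm_mul, Complex.norm_natCast] at h5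
      have h6 : (b : ℝ) * ‖V p‖ ≤ b * (η / (2 * (b + 1)) * R) :=
        mul_le_mul_of_nonneg_left h2 (Nat.cast_nonneg b)
      have h7 : (b : ℝ) * (η / (2 * (b + 1)) * R) ≤ η / 2 * R := by
        have h8 : (b : ℝ) * (η / (2 * (b + 1))) ≤ η / 2 := by
          rw [mul_div_assoc', div_le_div_iff₀ (by positivity) (by positivity)]
          nlinarith
        calc (b : ℝ) * (η / (2 * (b + 1)) * R) = (b : ℝ) * (η / (2 * (b + 1))) * R := by ring
          _ ≤ η / 2 * R := mul_le_mul_of_nonneg_right h8 hR0.le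
      have h9 := (abs_le.1 h5).1
      linarith
    calc Real.exp (-(η * R)) = Real.exp (-(η / 2 * R)) * Real.exp (-(η / 2 * R)) := by
          rw [← Real.exp_add]; congr 1; ring
      _ ≤ ‖q (c b) p‖ * Real.exp ((b : ℂ) * V p).re :=
          mul_le_mul (h3.trans h1) (Real.exp_le_exp.2 h4) (Real.exp_pos _).le (norm_nonneg _)
  | succ n ih =>
    intro F c hF hc
    obtain ⟨b₀, hb₀⟩ : F.Nonempty := Finset.card_pos.1 (by omega)
    let c' : ℕ → K := fun b => c b₀ * (S.D (c b) + algebraMap ℂ K b * S.D S.v * c b) -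
      (S.D (c b₀) + algebraMap ℂ K b₀ * S.D S.v * c b₀) * c b
    have hcard : (F.erase b₀).card = n + 1 := by rw [Finset.card_erase_of_mem hb₀]; omega
    have hc'0 : ∀ b ∈ F.erase b₀, c' b ≠ 0 := by
      intro b hb h0
      obtain ⟨hne, hbF⟩ := Finset.mem_erase.1 hb
      have h1 : c b₀ ≠ 0 := hc b₀ hb₀
      have h2 : c b ≠ 0 := hc b hbF
      have h3 : S.D (c b / c b₀) = (c b₀ * S.D (c b) - c b * S.D (c b₀)) / (c b₀) ^ 2 := by
        rw [Derivation.leibniz_div]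
        simp only [smul_eq_mul]
        field_simp
      refine H (c b / c b₀) (div_ne_zero h2 h1) ((b₀ : ℤ) - b) ?_ ?_
      · intro h4
        exact hne (by omega)
      · rw [h3, div_eq_iff (pow_ne_zero 2 h1)]
        have h5 : c b₀ * (S.D (c b) + algebraMap ℂ K b * S.D S.v * c b) -
          (S.D (c b₀) + algebraMap ℂ K b₀ * S.D S.v * c b₀) * c b = 0 := h0
        have h6 : algebraMap ℂ K b = (b : K) := map_natCast _ _
        have h7 : algebraMap ℂ K b₀ = (b₀ : K) := map_natCast _ _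
        rw [h6, h7] at h5
        push_cast
        field_simp
        linear_combination h5
    obtain ⟨Q₁, hQ₁⟩ := ih (F.erase b₀) c' hcard hc'0
    classical
    refine ⟨Q₁ ∪ F.image c ∪ F.image (fun b => S.D (c b)) ∪ F.image c' ∪ {S.D S.v},
      fun Q hQ C η ρ hη hρ => ?_⟩
    have q1 : Q₁ ⊆ Q := fun x hx => hQ (by simp [hx])
    have qc : ∀ b ∈ F, c b ∈ Q := fun b hb => hQ (by
      simp only [Finset.mem_union, Finset.mem_image]
      exact Or.inl (Or.inl (Or.inl (Or.inr ⟨b, hb, rfl⟩))))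
    have qd : ∀ b ∈ F, S.D (c b) ∈ Q := fun b hb => hQ (by
      simp only [Finset.mem_union, Finset.mem_image]
      exact Or.inl (Or.inl (Or.inr ⟨b, hb, rfl⟩)))
    have qc' : ∀ b ∈ F, c' b ∈ Q := fun b hb => hQ (by
      simp only [Finset.mem_union, Finset.mem_image]
      exact Or.inl (Or.inr ⟨b, hb, rfl⟩))
    have qv : S.D S.v ∈ Q := hQ (by simp)
    obtain ⟨δ, R₁, hδ, hR₁⟩ := hQ₁ Q q1 C (η / 2) (ρ / 2) (by positivity) (by positivity)
    obtain ⟨R₂, hR₂1, hR₂⟩ := asym (4 / ρ + 1 + b₀) (2 * |C|) (η / 2) (by positivity)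
    refine ⟨δ, max R₁ R₂, hδ, ?_⟩
    intro R hR ω X V q h p hp
    have hRR₁ : R₁ ≤ R := (le_max_left _ _).trans hR
    have hRR₂ : R₂ ≤ R := (le_max_right _ _).trans hR
    have hR1 : 1 ≤ R := hR₂1.trans hRR₂
    have hR0 : 0 < R := lt_of_lt_of_le one_pos hR1
    by_contra hcon
    push Not at hcon
    have hsub : ball p (ρ / 2 * R) ⊆ ball p (ρ * R) :=
      ball_subset_ball (by nlinarith)
    obtain ⟨τ, hτ, h1⟩ := hR₁ R hRR₁ ω X V q h p (hsub.trans hp)
    have hτm : τ ∈ ball ((R : ℂ) * ω) (R / 8) := hp (hsub hτ)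
    set f : ℂ → ℂ := fun τ => ∑ b ∈ F, q (c b) τ * Complex.exp ((b : ℂ) * V τ) with hf
    have hd : ∀ s ∈ ball ((R : ℂ) * ω) (R / 8), HasDerivAt f
        (∑ b ∈ F, (q (S.D (c b)) s + b * q (S.D S.v) s * q (c b) s) *
        Complex.exp ((b : ℂ) * V s)) s := fun s hs => hasDeriv h hs F c qc qd qv
    -- the bound for the derivative
    have hr : 0 < ρ * R / 4 := by positivity
    have hcb : closedBall τ (ρ * R / 4) ⊆ ball p (ρ * R) := by
      intro s hs
      rw [mem_closedBall, dist_eq_norm] at hs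
      rw [mem_ball, dist_eq_norm] at hτ ⊢
      calc ‖s - p‖ = ‖(s - τ) + (τ - p)‖ := by congr 1; ring
        _ ≤ ‖s - τ‖ + ‖τ - p‖ := norm_add_le _ _
        _ < ρ * R := by nlinarith
    have hder : ‖deriv f τ‖ ≤ Real.exp (-(η * R)) / (ρ * R / 4) := by
      apply Complex.norm_deriv_le_of_forall_mem_sphere_norm_le hr
      · refine DifferentiableOn.diffContOnCl ?_
        rw [closure_ball _ hr.ne']
        intro s hs
        exact (hd s (hp (hcb hs))).differentiableAt.differentiableWithinAt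
      · intro s hs
        exact (hcon s (hcb (sphere_subset_closedBall hs))).le
    have hid : q (c b₀) τ * deriv f τ -
        (q (S.D (c b₀)) τ + b₀ * q (S.D S.v) τ * q (c b₀) τ) * f τ =
        ∑ b ∈ F.erase b₀, q (c' b) τ * Complex.exp ((b : ℂ) * V τ) := by
      rw [(hd τ hτm).deriv, hf]
      simp only
      rw [Finset.mul_sum, Finset.mul_sum, ← Finset.sum_sub_distrib, ← Finset.sum_erase_add _ _ hb₀]
      have e1 : q (c b₀) τ * ((q (S.D (c b₀)) τ + b₀ * q (S.D S.v) τ * q (c b₀) τ) *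
          Complex.exp ((b₀ : ℂ) * V τ)) - (q (S.D (c b₀)) τ + b₀ * q (S.D S.v) τ * q (c b₀) τ) *
          (q (c b₀) τ * Complex.exp ((b₀ : ℂ) * V τ)) = 0 := by ring
      rw [e1, add_zero]
      apply Finset.sum_congr rfl
      intro b hb
      have hbF := Finset.mem_of_mem_erase hb
      have e2 := rel h hτm (A0 := c b₀) (A1 := S.D (c b₀)) (B0 := c b) (B1 := S.D (c b))
        (W := S.D S.v) (E := c' b) b b₀ (qc b₀ hb₀) (qd b₀ hb₀) (qc b hbF) (qd b hbF) qv
        (qc' b hbF) rfl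
      rw [e2]
      ring
    -- the bounds
    have hRC : ∀ k ∈ Q, ‖q k τ‖ ≤ R ^ |C| := fun k hk =>
      ((h.bq τ hτm k hk).1).trans (Real.rpow_le_rpow_of_exponent_le hR1 (le_abs_self C))
    have hfτ : ‖f τ‖ ≤ Real.exp (-(η * R)) := (hcon τ (hsub hτ)).le
    have hB0 : (1 : ℝ) ≤ R ^ |C| := Real.one_le_rpow hR1 (abs_nonneg C)
    have hB2 : R ^ |C| * R ^ |C| = R ^ (2 * |C|) := by
      rw [← Real.rpow_add hR0]; congr 1; ring
    rw [← hid] at h1
    have h2 : ‖q (c b₀) τ * deriv f τ -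
        (q (S.D (c b₀)) τ + b₀ * q (S.D S.v) τ * q (c b₀) τ) * f τ‖ ≤
        R ^ |C| * (Real.exp (-(η * R)) / (ρ * R / 4)) +
          (R ^ |C| + b₀ * (R ^ |C| * R ^ |C|)) * Real.exp (-(η * R)) := by
      refine (norm_sub_le _ _).trans (add_le_add ?_ ?_)
      · rw [norm_mul]
        exact mul_le_mul (hRC _ (qc b₀ hb₀)) hder (norm_nonneg _) (by positivity)
      · rw [norm_mul]
        refine mul_le_mul ?_ hfτ (norm_nonneg _) (by positivity)
        refine (norm_add_le _ _).trans (add_le_add (hRC _ (qd b₀ hb₀)) ?_)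
        rw [norm_mul, norm_mul, Complex.norm_natCast, mul_assoc]
        exact mul_le_mul_of_nonneg_left (mul_le_mul (hRC _ qv) (hRC _ (qc b₀ hb₀)) (norm_nonneg _)
          (by positivity)) (Nat.cast_nonneg _)
    have h3 : R ^ |C| * (Real.exp (-(η * R)) / (ρ * R / 4)) +
          (R ^ |C| + b₀ * (R ^ |C| * R ^ |C|)) * Real.exp (-(η * R)) ≤
        (4 / ρ + 1 + b₀) * R ^ (2 * |C|) * Real.exp (-(η * R)) := by
      have h4 : R ^ |C| ≤ R ^ (2 * |C|) := by
        rw [← hB2]; nlinarith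
      have h5 : Real.exp (-(η * R)) / (ρ * R / 4) ≤ 4 / ρ * Real.exp (-(η * R)) := by
        rw [div_le_iff₀ hr]
        have : 4 / ρ * Real.exp (-(η * R)) * (ρ * R / 4) = Real.exp (-(η * R)) * R := by
          field_simp
        rw [this]
        exact le_mul_of_one_le_right (Real.exp_pos _).le hR1
      have h6 : R ^ |C| * (Real.exp (-(η * R)) / (ρ * R / 4)) ≤
          R ^ (2 * |C|) * (4 / ρ * Real.exp (-(η * R))) :=
        mul_le_mul h4 h5 (by positivity) (by positivity)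
      have h7 : (R ^ |C| + b₀ * (R ^ |C| * R ^ |C|)) * Real.exp (-(η * R)) ≤
          (R ^ (2 * |C|) + b₀ * R ^ (2 * |C|)) * Real.exp (-(η * R)) := by
        rw [hB2]
        exact mul_le_mul_of_nonneg_right (by linarith) (Real.exp_pos _).le
      linarith
    have h8 := hR₂ R hRR₂
    have h9 : (4 / ρ + 1 + b₀) * R ^ (2 * |C|) * Real.exp (-(η * R)) <
        Real.exp (η / 2 * R) * Real.exp (-(η * R)) :=
      mul_lt_mul_of_pos_right h8 (Real.exp_pos _)
    rw [← Real.exp_add] at h9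
    have h10 : η / 2 * R + -(η * R) = -(η / 2 * R) := by ring
    rw [h10] at h9
    linarith

end Pool.Agent.H338.EX
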